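import Pool.Agent.Y798.FC.Stm

/-! # Division of integer trigonometric polynomials by `∏ (1 - e_α)` -/

set_option autoImplicit false

noncomputable section

namespace Pool.Agent.Y495.FC.Div

open MeasureTheory UnitAddTorus Pool.Agent.Y139.ID Pool.Agent.Y798.FC Filter Topology

local instance : MeasureSpace UnitAddCircle := ⟨AddCircle.haarAddCircle⟩

local instance : Measure.IsAddHaarMeasure (volume : Measure UnitAddCircle) :=
  inferInstanceAs (Measure.IsAddHaarMeasure AddCircle.haarAddCircle)

local instance : IsProbabilityMeasure (volume : Measure UnitAddCircle) :=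
  inferInstanceAs (IsProbabilityMeasure AddCircle.haarAddCircle)

variable {J : Type} [Fintype J]

lemma norm_mF (n : J → ℤ) (x : UnitAddTorus J) : ‖mFourier n x‖ = 1 := by
  apply le_antisymm
  · exact (ContinuousMap.norm_coe_le_norm _ _).trans mFourier_norm.le
  · have h : mFourier n x * mFourier (-n) x = 1 := by
      rw [← mFourier_add, add_neg_cancel, mFourier_zero]; rfl
    have h1 : ‖mFourier (-n) x‖ ≤ 1 := (ContinuousMap.norm_coe_le_norm _ _).trans mFourier_norm.le
    have h2 : ‖mFourier n x‖ * ‖mFourier (-n) x‖ = 1 := by rw [← norm_mul, h, norm_one]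
    nlinarith [norm_nonneg (mFourier n x), norm_nonneg (mFourier (-n) x)]

open Classical in
lemma int_mF (n : J → ℤ) : ∫ x : UnitAddTorus J, mFourier n x = if n = 0 then 1 else 0 := by
  have h := orthonormal_iff_ite.1 (orthonormal_mFourier (d := J)) 0 n
  rw [ContinuousMap.inner_toLp] at h
  simpa [mFourier_zero, eq_comm] using h

lemma integrable_of_cont {f : UnitAddTorus J → ℂ} (hf : Continuous f) : Integrable f :=
  hf.integrable_of_hasCompactSupport (HasCompactSupport.of_compactSpace f)

open Classical in
/-- Fourier coefficients of a trigonometric polynomial -/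
lemma coeff_trig (c : (J → ℤ) →₀ ℤ) (μ : J → ℤ) : mFourierCoeff (trig c) μ = c μ := by
  induction c using Finsupp.induction_linear with
  | zero => simp [mFourierCoeff, trig_zero]
  | add f g hf hg =>
    have : mFourierCoeff (trig (f + g)) μ = mFourierCoeff (trig f) μ + mFourierCoeff (trig g) μ := by
      unfold mFourierCoeff
      rw [← integral_add]
      · simp only [trig_add, smul_add]
      · exact integrable_of_cont (((mFourier (-μ)).continuous).smul (continuous_trig f))
      · exact integrable_of_cont (((mFourier (-μ)).continuous).smul (continuous_trig g))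
    rw [this, hf, hg]
    simp
  | single n a =>
    unfold mFourierCoeff
    have : ∀ x : UnitAddTorus J, mFourier (-μ) x • trig (Finsupp.single n a) x =
        (a : ℂ) * mFourier (-μ + n) x := by
      intro x
      rw [trig_single, mFourier_add, smul_eq_mul]
      ring
    simp only [this]
    rw [integral_const_mul, int_mF, Finsupp.single_apply]
    have e : (-μ + n = 0) ↔ (n = μ) := by
      constructor
      · intro h; exact (neg_add_eq_zero.1 h).symm
      · rintro rfl; simp
    by_cases h : n = μ
    · simp [h]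
    · simp [h, e]

/-- translation of the coefficients -/
def shift (α : J → ℤ) (d : (J → ℤ) →₀ ℤ) : (J → ℤ) →₀ ℤ :=
  Finsupp.equivMapDomain (Equiv.addRight α) d

omit [Fintype J] in
lemma shift_apply (α : J → ℤ) (d : (J → ℤ) →₀ ℤ) (μ : J → ℤ) : shift α d μ = d (μ - α) := by
  unfold shift
  rw [Finsupp.equivMapDomain_apply]
  simp [sub_eq_add_neg]

lemma trig_shift (α : J → ℤ) (d : (J → ℤ) →₀ ℤ) (x : UnitAddTorus J) :
    trig (shift α d) x = mFourier α x * trig d x := by
  unfold shift
  rw [Finsupp.equivMapDomain_eq_mapDomain]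
  unfold trig
  rw [Finsupp.sum_mapDomain_index, Finsupp.mul_sum]
  · refine Finsupp.sum_congr fun n _ => ?_
    simp only [Equiv.coe_addRight, mFourier_add]
    ring
  · intro n; simp
  · intro n a b; push_cast; ring

lemma trig_sub' (c c' : (J → ℤ) →₀ ℤ) (x : UnitAddTorus J) :
    trig (c - c') x = trig c x - trig c' x := by
  have := trig_add (c - c') c' x
  rw [sub_add_cancel] at this
  rw [this]; ring

/-- division by one factor -/
lemma div_one' (α : J → ℤ) (hα : α ≠ 0) (R : UnitAddTorus J → ℝ) (hR : Continuous R)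
    (hR0 : ∀ x, 0 ≤ R x) (C : ℝ) (c : (J → ℤ) →₀ ℤ)
    (h : ∀ᵐ x : UnitAddTorus J, ‖trig c x‖ ≤ C * (‖1 - mFourier α x‖ * R x)) :
    ∃ d : (J → ℤ) →₀ ℤ, (∀ x, trig c x = trig d x * (1 - mFourier α x)) ∧
      ∀ᵐ x : UnitAddTorus J, ‖trig d x‖ ≤ |C| * R x := by
  set Q : UnitAddTorus J → ℂ := fun x => trig c x / (1 - mFourier α x) with hQ
  have hQm : AEStronglyMeasurable Q volume := by
    have h1 : Measurable (trig c) := (continuous_trig c).measurable
    have h2 : Measurable fun x : UnitAddTorus J => 1 - mFourier α x :=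
      (continuous_const.sub (mFourier α).continuous).measurable
    exact (h1.div h2).aestronglyMeasurable
  have hQb : ∀ᵐ x : UnitAddTorus J, ‖Q x‖ ≤ |C| * R x := by
    filter_upwards [h] with x hx
    by_cases h0 : 1 - mFourier α x = 0
    · simp only [hQ, h0, div_zero, norm_zero]
      exact mul_nonneg (abs_nonneg _) (hR0 x)
    · have hp : 0 < ‖1 - mFourier α x‖ := norm_pos_iff.2 h0
      simp only [hQ, norm_div]
      rw [div_le_iff₀ hp]
      refine hx.trans ?_
      have : C ≤ |C| := le_abs_self C
      have := mul_le_mul_of_nonneg_right this (mul_nonneg hp.le (hR0 x))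
      linarith
  have hXQ : ∀ᵐ x : UnitAddTorus J, (1 - mFourier α x) * Q x = trig c x := by
    filter_upwards [h] with x hx
    by_cases h0 : 1 - mFourier α x = 0
    · rw [h0] at hx
      simp only [norm_zero, zero_mul, mul_zero, norm_le_zero_iff] at hx
      rw [h0, hx, zero_mul]
    · simp only [hQ]
      field_simp
  obtain ⟨B, hB⟩ : ∃ B, ∀ x, |C| * R x ≤ B := by
    obtain ⟨B, hB⟩ := (isCompact_univ (X := UnitAddTorus J)).bddAbove_image
      ((continuous_const (y := |C|)).mul hR).continuousOn
    exact ⟨B, fun x => hB ⟨x, trivial, rfl⟩⟩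
  have hQB : ∀ᵐ x : UnitAddTorus J, ‖Q x‖ ≤ B := by
    filter_upwards [hQb] with x hx
    exact hx.trans (hB x)
  have hmem : MemLp Q 2 volume := MemLp.of_bound hQm B hQB
  set F := hmem.toLp Q with hF
  have hFQ : F =ᵐ[volume] Q := hmem.coeFn_toLp
  set q : (J → ℤ) → ℂ := fun μ => mFourierCoeff Q μ with hq
  have hqF : ∀ μ, mFourierCoeff F μ = q μ := fun μ => by
    simp only [hq, mFourierCoeff]
    refine integral_congr_ae ?_
    filter_upwards [hFQ] with x hx
    rw [hx]
  -- recursion
  have hint : ∀ μ : J → ℤ, Integrable (fun x : UnitAddTorus J => mFourier μ x * Q x) := by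
    intro μ
    refine Integrable.of_bound ((mFourier μ).continuous.aestronglyMeasurable.mul hQm) B ?_
    filter_upwards [hQB] with x hx
    rw [norm_mul, norm_mF, one_mul]
    exact hx
  have hrec : ∀ μ, (c μ : ℂ) = q μ - q (μ - α) := by
    intro μ
    rw [← coeff_trig c μ]
    simp only [hq, mFourierCoeff, smul_eq_mul]
    rw [← integral_sub (hint _) (hint _)]
    refine integral_congr_ae ?_
    filter_upwards [hXQ] with x hx
    rw [← hx]
    have e : mFourier (-(μ - α)) x = mFourier (-μ) x * mFourier α x := by
      rw [← mFourier_add]; congr 2; abel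
    rw [e]; ring
  have hsum : Summable fun μ => ‖q μ‖ ^ 2 := by
    have := (hasSum_sq_mFourierCoeff F).summable
    simpa only [hqF] using this
  have hq0 : Tendsto (fun μ => ‖q μ‖) cofinite (𝓝 0) := by
    have h1 := hsum.tendsto_cofinite_zero
    have h2 := (Real.continuous_sqrt.tendsto 0).comp h1
    simpa [Function.comp_def, Real.sqrt_sq (norm_nonneg _)] using h2
  have hq0' : Tendsto q cofinite (𝓝 0) := tendsto_zero_iff_norm_tendsto_zero.2 hq0
  -- integrality
  have hpart : ∀ (μ : J → ℤ) (k : ℕ),
      q μ = ((∑ j ∈ Finset.range k, c (μ - (j : ℤ) • α) : ℤ) : ℂ) + q (μ - (k : ℤ) • α) := by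
    intro μ k
    induction k with
    | zero => simp
    | succ k ih =>
      rw [ih, Finset.sum_range_succ]
      push_cast
      rw [hrec (μ - (k : ℤ) • α)]
      have : μ - (k : ℤ) • α - α = μ - ((k : ℤ) + 1) • α := by
        rw [add_smul, one_smul]; abel
      rw [this]
      ring
  have hcl : IsClosed (Set.range fun z : ℤ => (z : ℂ)) := by
    have := (Complex.isometry_ofReal.isClosedEmbedding.comp
      Int.isClosedEmbedding_coe_real).isClosed_range
    simpa [Function.comp_def] using this
  have hinj : ∀ μ : J → ℤ, Function.Injective fun k : ℕ => μ - (k : ℤ) • α := by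
    intro μ k l hkl
    obtain ⟨i, hi⟩ : ∃ i, α i ≠ 0 := by
      by_contra hh
      push Not at hh
      exact hα (funext hh)
    have h1 : ((k : ℤ) • α) i = ((l : ℤ) • α) i := by
      have := congrFun (sub_right_injective hkl) i
      exact this
    simp only [Pi.smul_apply, smul_eq_mul] at h1
    exact_mod_cast mul_right_cancel₀ hi h1
  have hZ : ∀ μ, ∃ z : ℤ, (z : ℂ) = q μ := by
    intro μ
    have h1 : Tendsto (fun k : ℕ => q (μ - (k : ℤ) • α)) atTop (𝓝 0) := by
      have := (hinj μ).tendsto_cofinite
      rw [Nat.cofinite_eq_atTop] at this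
      exact hq0'.comp this
    have h2 : Tendsto (fun k : ℕ =>
        ((∑ j ∈ Finset.range k, c (μ - (j : ℤ) • α) : ℤ) : ℂ)) atTop (𝓝 (q μ)) := by
      have h3 := (tendsto_const_nhds (x := q μ)).sub h1
      rw [sub_zero] at h3
      refine h3.congr fun k => ?_
      rw [hpart μ k]; ring
    exact hcl.mem_of_tendsto h2 (Eventually.of_forall fun k => ⟨_, rfl⟩)
  choose z hz using hZ
  have hfin : (Function.support z).Finite := by
    have h1 : ∀ᶠ μ in cofinite, ‖q μ‖ < 1 := hq0.eventually_lt_const one_pos
    rw [eventually_cofinite] at h1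
    refine h1.subset fun μ hμ => ?_
    simp only [Set.mem_ofPred_eq, not_lt]
    rw [← hz μ, Complex.norm_intCast]
    have : (1 : ℤ) ≤ |z μ| := Int.one_le_abs hμ
    exact_mod_cast this
  set d : (J → ℤ) →₀ ℤ := Finsupp.ofSupportFinite z hfin with hd
  have hdz : ∀ μ, (d μ : ℂ) = q μ := fun μ => hz μ
  have hcd : c = d - shift α d := by
    ext μ
    have h1 := hrec μ
    rw [← hdz, ← hdz] at h1
    rw [Finsupp.sub_apply, shift_apply]
    exact_mod_cast h1
  refine ⟨d, fun x => ?_, ?_⟩
  · conv_lhs => rw [hcd]
    rw [trig_sub', trig_shift]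
    ring
  · -- `Q = trig d` almost everywhere
    set D : C(UnitAddTorus J, ℂ) := ⟨trig d, continuous_trig d⟩ with hD
    have hFD : F = ContinuousMap.toLp (E := ℂ) 2 volume ℂ D := by
      apply (mFourierBasis (d := J)).repr.injective
      ext μ
      rw [mFourierBasis_repr, mFourierBasis_repr, hqF, mFourierCoeff_toLp, ← hdz]
      exact (coeff_trig d μ).symm
    have hQD : Q =ᵐ[volume] trig d := by
      have h1 := ContinuousMap.coeFn_toLp (p := 2) (𝕜 := ℂ) (volume : Measure (UnitAddTorus J)) D
      rw [← hFD] at h1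
      exact hFQ.symm.trans h1
    filter_upwards [hQD, hQb] with x h1 h2
    rw [← h1]
    exact h2

lemma vol_eq (J : Type) [Fintype J] : vol J = (volume : Measure (UnitAddTorus J)) := rfl

theorem div : StmDiv := by
  intro J _ L
  induction L with
  | nil =>
    intro _ C c _
    exact ⟨c, fun x => by simp⟩
  | cons α L ih =>
    intro hL C c h
    obtain ⟨d, hd1, hd2⟩ := div_one' α (hL α (by simp))
      (fun x => (L.map fun α => ‖1 - mFourier α x‖).prod) (by
        apply continuous_list_prod
        intro β _
        exact (continuous_const.sub (mFourier β).continuous).norm) (fun x => by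
        apply List.prod_nonneg
        intro a ha
        obtain ⟨β, _, rfl⟩ := List.mem_map.1 ha
        exact norm_nonneg _) C c (by rw [vol_eq] at h; simpa using h)
    obtain ⟨c', hc'⟩ := ih (fun β hβ => hL β (by simp [hβ])) |C| d hd2
    refine ⟨c', fun x => ?_⟩
    rw [hd1, hc', List.map_cons, List.prod_cons]
    ring

theorem t : StmDiv := div

end Pool.Agent.Y495.FC.Div
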