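import Pool.Agent.Y798.FC.Stm

/-! # The signed permutations act irreducibly on `ℤ^g` -/

set_option autoImplicit false

namespace Pool.Agent.Y495.FC

open Pool.Agent.Y798.FC

/-- signed permutation -/
def sp {g : ℕ} (σ : Equiv.Perm (Fin g)) (s : Fin g → ℤˣ) : Auts (Fin g) where
  toFun x j := s j * x (σ j)
  map_add' x y := by ext j; simp [mul_add]
  map_smul' c x := by ext j; simp; ring
  invFun x j := s (σ⁻¹ j) * x (σ⁻¹ j)
  left_inv x := by
    ext j
    have h3 : σ (σ⁻¹ j) = j := by simp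
    change (s (σ⁻¹ j) : ℤ) * (s (σ⁻¹ j) * x (σ (σ⁻¹ j))) = x j
    rw [h3, ← mul_assoc, ← Units.val_mul, Int.units_mul_self]
    simp
  right_inv x := by
    ext j
    have h3 : σ⁻¹ (σ j) = j := by simp
    change (s j : ℤ) * (s (σ⁻¹ (σ j)) * x (σ⁻¹ (σ j))) = x j
    rw [h3, ← mul_assoc, ← Units.val_mul, Int.units_mul_self]
    simp

lemma sp_mem {g : ℕ} (σ : Equiv.Perm (Fin g)) (s : Fin g → ℤˣ) : sp σ s ∈ sympW g :=
  ⟨σ, s, fun _ _ => rfl⟩

theorem irr : StmIrr := by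
  intro g Γ hΓ hne
  obtain ⟨γ, hγ, hγ0⟩ := Γ.ne_bot_iff_exists_ne_zero.1 hne |>.elim fun a ha =>
    (⟨a.1, a.2, fun h => ha (Subtype.ext h)⟩ : ∃ γ, γ ∈ Γ ∧ γ ≠ 0)
  obtain ⟨k, hk⟩ : ∃ k, γ k ≠ 0 := by
    by_contra h
    push Not at h
    exact hγ0 (funext h)
  have h1 : (Pi.single k (2 * γ k) : Fin g → ℤ) ∈ Γ := by
    have := Γ.sub_mem hγ (hΓ _ (sp_mem 1 (Function.update 1 k (-1))) γ hγ)
    convert this using 1
    ext j
    by_cases hj : j = k
    · subst hj
      simp [sp]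
      ring
    · simp [sp, hj]
  have h2 : ∀ j, (Pi.single j (2 * γ k) : Fin g → ℤ) ∈ Γ := by
    intro j
    have := hΓ _ (sp_mem (Equiv.swap k j) 1) _ h1
    convert this using 1
    ext i
    change _ = (((1 : Fin g → ℤˣ) i : ℤˣ) : ℤ) * (Pi.single k (2 * γ k) : Fin g → ℤ) (Equiv.swap k j i)
    by_cases hj : i = j
    · subst hj
      simp
    · have : Equiv.swap k j i ≠ k := by
        intro h
        apply hj
        have h' := congrArg (Equiv.swap k j) h
        simpa using h'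
      simp [hj, this]
  refine ⟨(2 * γ k).natAbs, Int.natAbs_pos.2 (by omega), fun μ => ?_⟩
  have h3 : (2 * γ k).natAbs • μ = ∑ j, ((2 * γ k).sign * μ j) • (Pi.single j (2 * γ k) : Fin g → ℤ) := by
    ext i
    rw [Finset.sum_apply, Finset.sum_eq_single i]
    · simp only [Pi.smul_apply, Pi.single_eq_same, smul_eq_mul, nsmul_eq_mul]
      have : (((2 * γ k).natAbs : ℕ) : ℤ) = (2 * γ k).sign * (2 * γ k) := by
        rw [Int.sign_mul_self_eq_natAbs]
      rw [this]; ring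
    · intro j _ hj
      simp [hj.symm]
    · simp
  rw [h3]
  exact Γ.sum_mem fun j _ => Γ.zsmul_mem (h2 j) _

theorem t : StmIrr := irr

end Pool.Agent.Y495.FC
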